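import Pool.Agent.H70.NC.Upper
import Pool.Agent.H70.NC.Lower

/-!
# Non-collectable patterns can matter

We disprove the conjecture that adding non-collectable patterns to a set of collectable patterns
does not change the order of magnitude of the largest clique in a random ordered `r`-matching.

Let `r = 5` and write an edge as `a < b < c < d < y`. Let `R` be the set of all patterns of edges
`e`, `f` such that both intervals `[a, d]` lie to the left of both vertices `y`, and the intervals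
are disjoint, or nested such that the outer interval belongs to the larger `y` and, `e` being the
outer edge, `b_e` and `c_e` lie both in the inner interval `[a_f, d_f]` only if
`b_e < c_f < c_e`. Eleven of the thirteen patterns in `R` are collectable. For `n = t^3 16^t`, a
multiscale construction gives `R`-cliques of size at least `t 2^t / 100` with probability at
least `1/100`. On the other hand, a resource counting argument, with a dyadic energy estimate for
the third resource, shows that with high probability the largest clique for the eleven collectable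
patterns has size `o(t 2^t)`.
-/

set_option autoImplicit false

namespace Pool.Agent.Results.MP_0c785e_pr.Disproof

open Finset Filter Topology
open scoped Classical
open Pool.Agent.H70.NC Pool.Agent.H70.NC.Model

lemma RM_eq (n : ℕ) : RM 5 n = (PM (univ : Finset (Fin (5 * n))) : Set (Finset (Fin 5 ↪o Fin (5 * n)))) := by
  ext M
  rw [Finset.mem_coe, mem_PM, card_univ, Fintype.card_fin]
  constructor
  · rintro ⟨h1, h2⟩
    exact ⟨h1, fun e _ => subset_univ _, by rw [h2]⟩
  · rintro ⟨h1, -, h2⟩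
    exact ⟨h1, by omega⟩

lemma prob_eq (n : ℕ) (E : Finset (Fin 5 ↪o Fin (5 * n)) → Prop) :
    prob 5 n E = (((PM (univ : Finset (Fin (5 * n)))).filter E).card : ℝ) / Fr n := by
  unfold prob
  have h1 : {M ∈ RM 5 n | E M} = ((PM (univ : Finset (Fin (5 * n)))).filter E :
      Set (Finset (Fin 5 ↪o Fin (5 * n)))) := by
    ext M
    rw [Finset.mem_coe, mem_filter, RM_eq]
    rfl
  rw [h1, RM_eq, Set.ncard_coe_finset, Set.ncard_coe_finset,
    card_PM n _ (by rw [card_univ, Fintype.card_fin])]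

/-! Sanity checks for the definitions: there are matchings, the total probability is one, and the
trivial inequality holds. -/

lemma RM_ncard_pos (n : ℕ) : 0 < (RM 5 n).ncard := by
  rw [RM_eq, Set.ncard_coe_finset]
  have h1 := Fr_pos n
  rw [← card_PM n (univ : Finset (Fin (5 * n))) (by rw [card_univ, Fintype.card_fin])] at h1
  exact_mod_cast h1

lemma prob_true (n : ℕ) : prob 5 n (fun _ => True) = 1 := by
  unfold prob
  have h : {M ∈ RM 5 n | True} = RM 5 n := by ext M; simp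
  rw [h]
  exact div_self (by exact_mod_cast (RM_ncard_pos n).ne')

lemma z_le_z_union (P Q : Set (Pattern 5)) {n : ℕ} (M : Finset (Fin 5 ↪o Fin (5 * n))) :
    z P M ≤ z (P ∪ Q) M := by
  unfold z
  refine Finset.sup_mono fun S hS => ?_
  rw [mem_filter] at hS ⊢
  refine ⟨hS.1, fun e he f hf hne => ?_⟩
  rcases hS.2 e he f hf hne with h | h
  · exact Or.inl ⟨h.1, Or.inl h.2⟩
  · exact Or.inr ⟨h.1, Or.inl h.2⟩

lemma prob_le (c : ℝ) (hc : 0 < c) : ∃ t0 : ℕ, ∀ t ≥ t0,
    prob 5 (nn t) (fun M => c * (z (PP0 ∪ QQ0) M : ℝ) ≤ (z PP0 M : ℝ)) ≤ 995 / 1000 := by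
  obtain ⟨κ, hκ⟩ := pow_unbounded_of_one_lt (100 / c) (by norm_num : (1 : ℝ) < 2)
  obtain ⟨t0, ht0⟩ := upper κ
  refine ⟨max t0 (κ + 8), fun t ht => ?_⟩
  have hup := ht0 t (by omega)
  have hlow := lower t (by omega)
  change Fr (nn t) / 100 ≤ (((PM (univ : Finset (Fin (5 * nn t)))).filter
      (fun M => ((t * 2 ^ t : ℕ) : ℝ) / 100 ≤ (z (PP0 ∪ QQ0) M : ℝ))).card : ℝ) at hlow
  set n := nn t with hn
  set Ω := PM (univ : Finset (Fin (5 * n))) with hΩ
  have hΩc : (Ω.card : ℝ) = Fr n := card_PM n _ (by rw [card_univ, Fintype.card_fin])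
  have hF := Fr_pos n
  rw [prob_eq, div_le_iff₀ hF]
  set A := Ω.filter (fun M => ((t * 2 ^ t : ℕ) : ℝ) / 100 ≤ (z (PP0 ∪ QQ0) M : ℝ)) with hA
  set A' := Ω.filter (fun M => ¬ ((t * 2 ^ t : ℕ) : ℝ) / 100 ≤ (z (PP0 ∪ QQ0) M : ℝ)) with hA'
  set B := Ω.filter (fun M => t * 2 ^ (t - κ) ≤ z PP0 M) with hB
  have hAA : (A.card : ℝ) + (A'.card : ℝ) = Fr n := by
    rw [← hΩc]
    exact_mod_cast Finset.card_filter_add_card_filter_not _
  have hsub : Ω.filter (fun M => c * (z (PP0 ∪ QQ0) M : ℝ) ≤ (z PP0 M : ℝ)) ⊆ A' ∪ B := by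
    intro M hM
    rw [mem_filter] at hM
    rw [mem_union]
    by_cases h : ((t * 2 ^ t : ℕ) : ℝ) / 100 ≤ (z (PP0 ∪ QQ0) M : ℝ)
    · right
      rw [hB, mem_filter]
      refine ⟨hM.1, ?_⟩
      have h1 : c * (((t * 2 ^ t : ℕ) : ℝ) / 100) ≤ (z PP0 M : ℝ) :=
        (mul_le_mul_of_nonneg_left h hc.le).trans hM.2
      have h2 : ((t * 2 ^ (t - κ) : ℕ) : ℝ) ≤ c * (((t * 2 ^ t : ℕ) : ℝ) / 100) := by
        push_cast
        have h3 : (2 : ℝ) ^ t = 2 ^ (t - κ) * 2 ^ κ := by
          rw [← pow_add]; congr 1; omega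
        rw [h3]
        rw [div_lt_iff₀ hc] at hκ
        have h4 : (0 : ℝ) ≤ t * 2 ^ (t - κ) := by positivity
        calc (t : ℝ) * 2 ^ (t - κ) = t * 2 ^ (t - κ) * (100 / 100) := by ring
          _ ≤ t * 2 ^ (t - κ) * (2 ^ κ * c / 100) := by gcongr
          _ = c * (t * (2 ^ (t - κ) * 2 ^ κ) / 100) := by ring
      exact_mod_cast h2.trans h1
    · left
      rw [hA', mem_filter]; exact ⟨hM.1, h⟩
  have hcard : ((Ω.filter (fun M => c * (z (PP0 ∪ QQ0) M : ℝ) ≤ (z PP0 M : ℝ))).card : ℝ) ≤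
      (A'.card : ℝ) + (B.card : ℝ) := by
    exact_mod_cast (card_le_card hsub).trans (card_union_le _ _)
  have hk : (1 / 2 : ℝ) ^ (t * 2 ^ (t - κ)) ≤ 1 / 256 := by
    have h8 : 8 ≤ t * 2 ^ (t - κ) := by
      have h1 : 1 ≤ 2 ^ (t - κ) := Nat.one_le_two_pow
      calc 8 ≤ t * 1 := by omega
        _ ≤ t * 2 ^ (t - κ) := Nat.mul_le_mul_left _ h1
    calc (1 / 2 : ℝ) ^ (t * 2 ^ (t - κ)) ≤ (1 / 2 : ℝ) ^ 8 :=
          pow_le_pow_of_le_one (by norm_num) (by norm_num) h8
      _ = 1 / 256 := by norm_num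
  have hB' : (B.card : ℝ) ≤ Fr n * (1 / 256) :=
    hup.trans (mul_le_mul_of_nonneg_left hk hF.le)
  refine hcard.trans ?_
  linarith

lemma le_nn (t : ℕ) : t ≤ nn t := by
  unfold nn
  have h1 : 1 ≤ 16 ^ t := Nat.one_le_pow _ _ (by norm_num)
  calc t ≤ t ^ 3 := Nat.le_self_pow (by norm_num) t
    _ = t ^ 3 * 1 := by ring
    _ ≤ t ^ 3 * 16 ^ t := Nat.mul_le_mul_left _ h1

/-- There are a set `P` of collectable `5`-patterns and a set `Q` of non-collectable `5`-patterns
such that for every `c > 0` the probability that the random ordered `5`-matching `M` of size `n`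
satisfies `z P M ≥ c * z (P ∪ Q) M` does not tend to `1`. -/
theorem result : ∃ P Q : Set (Pattern 5),
    (∀ p ∈ P, IsPattern p ∧ Collectable p) ∧ (∀ q ∈ Q, IsPattern q ∧ ¬ Collectable q) ∧
    ∀ c : ℝ, 0 < c →
      ¬ Tendsto (fun n : ℕ => prob 5 n (fun M => c * (z (P ∪ Q) M : ℝ) ≤ (z P M : ℝ))) atTop (𝓝 1) := by
  refine ⟨PP0, QQ0, fun p hp => ⟨hp.1, hp.2.1⟩, fun q hq => ⟨hq.1, hq.2.1⟩, fun c hc hT => ?_⟩
  obtain ⟨t0, ht0⟩ := prob_le c hc
  have h1 := hT.eventually (lt_mem_nhds (by norm_num : (995 / 1000 : ℝ) < 1))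
  rw [eventually_atTop] at h1
  obtain ⟨n0, hn0⟩ := h1
  have h2 := hn0 (nn (max t0 n0)) ((le_max_right t0 n0).trans (le_nn _))
  have h3 := ht0 (max t0 n0) (le_max_left _ _)
  linarith

end Pool.Agent.Results.MP_0c785e_pr.Disproof
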