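import Mathlib

/-!
# Non-collectable patterns do not matter: patterns with uniform long blocks

For an ordered `r`-matching `M` and a set `P` of `r`-patterns, `z P M` is the largest size of a
`P`-clique in `M`. We prove that if all patterns in `P` are collectable, all patterns in `Q` are
non-collectable, and three consecutive vertices of an edge lie in one block either for all patterns
of `P` or for none of them, then `z (P ∪ Q) M` is at most a constant times `z P M` for every ordered
`r`-matching `M`. The hypothesis holds if all patterns of `P` have the same sequence of block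
lengths (in particular if `P` has one element) and if all blocks of all patterns of `P` have the
form `AB`, `BA`, `AABB` or `BBAA`.

Idea: by Ramsey's theorem `Q`-cliques are bounded. For a non-collectable `q` consider the partial
order given by those comparisons `e_b < f_a`, `a ≤ b`, which hold for `q`. If no pattern of `P` lies
above `q` in this sense, chains of the order are `Q`-cliques, so that there is a large antichain,
which has no pair with pattern `q`. Otherwise the hypothesis yields `a < b` such that the hulls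
`[e_a, e_b]` and `[f_a, f_b]` intersect for pairs with pattern `q` and are disjoint for all pairs
with patterns in `P`, and the same works with the intersection graph of the intervals `[e_a, e_b]`.
-/

open Finset

namespace Pool.Agent.Results.MP_0c785e_pr.UniformBlocks

/-- An `r`-pattern, given by its comparison table: the pattern of two disjoint edges `e`, `f` with
`min e < min f` is recorded as the relation `a, b ↦ [a-th vertex of e < b-th vertex of f]`. It
determines, and is determined by, the word in the letters `A`, `B`. -/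
abbrev Pattern (r : ℕ) := Fin r → Fin r → Prop

/-- Edges are `r`-element sets of naturals, listed increasingly. `tbl e f` is the comparison table
of `e` and `f`. -/
def tbl {r : ℕ} (e f : Fin r ↪o ℕ) : Pattern r := fun a b => e a < f b

/-- `e` and `f` form a pattern in `P` (the edge with the smaller minimum comes first). -/
def Forms {r : ℕ} [NeZero r] (P : Set (Pattern r)) (e f : Fin r ↪o ℕ) : Prop :=
  (e 0 < f 0 ∧ tbl e f ∈ P) ∨ (f 0 < e 0 ∧ tbl f e ∈ P)

/-- Ordered `r`-matchings: finite sets of pairwise disjoint `r`-element sets of naturals. -/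
def IsMatching {r : ℕ} (M : Finset (Fin r ↪o ℕ)) : Prop :=
  ∀ e ∈ M, ∀ f ∈ M, e ≠ f → ∀ a b, e a ≠ f b

/-- `P`-cliques: every pair of edges forms a pattern in `P`. -/
def IsClq {r : ℕ} [NeZero r] (P : Set (Pattern r)) (S : Finset (Fin r ↪o ℕ)) : Prop :=
  ∀ e ∈ S, ∀ f ∈ S, e ≠ f → Forms P e f

open Classical in
/-- `z P M` is the largest size of a `P`-clique contained in `M`. -/
noncomputable def z {r : ℕ} [NeZero r] (P : Set (Pattern r)) (M : Finset (Fin r ↪o ℕ)) : ℕ :=
  (M.powerset.filter (fun S => IsClq P S)).sup card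

/-- A pattern is collectable if there are `{p}`-cliques of every size. -/
def Collectable {r : ℕ} [NeZero r] (p : Pattern r) : Prop :=
  ∀ k : ℕ, ∃ S : Finset (Fin r ↪o ℕ), IsMatching S ∧ IsClq {p} S ∧ S.card = k

/-- For `i < j` and a collectable pattern `p`: the `i`-th and the `j`-th vertex lie in the same
block (`A^t B^t` or `B^t A^t`) of `p`. (If they lie in different blocks then `p i j` holds and
`p j i` fails; in one block both are true or both are false, according to its orientation.) -/
def SameBlock {r : ℕ} (p : Pattern r) (i j : Fin r) : Prop := p i j ↔ p j i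

/-- Three consecutive vertices lie in one block either for all patterns of `P` or for none. -/
def Uniform {r : ℕ} (P : Set (Pattern r)) : Prop :=
  ∀ p ∈ P, ∀ p' ∈ P, ∀ i k : Fin r, (k : ℕ) = i + 2 → SameBlock p i k → SameBlock p' i k

/-- Block form of a pattern. -/
def BlockForm {r : ℕ} (p : Pattern r) : Prop :=
  ∃ (blk : Fin r → ℕ) (s : ℕ → Prop), Monotone blk ∧
    ∀ a b, p a b ↔ (blk a < blk b ∨ (blk a = blk b ∧ s (blk a)))

/-! ### combinatorial lemmas -/

/-- Ramsey's theorem for monochromatic triples, many colours. -/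
lemma ramsey {α C : Type*} [DecidableEq α] [DecidableEq C] (d : ℕ) : ∃ N : ℕ, ∀ (S : Finset α) (κ : α → ℕ)
    (c : α → α → C) (D : Finset C), Set.InjOn κ S → D.card ≤ d →
    (∀ x ∈ S, ∀ y ∈ S, κ x < κ y → c x y ∈ D) → N ≤ S.card →
    ∃ x ∈ S, ∃ y ∈ S, ∃ t ∈ S, κ x < κ y ∧ κ y < κ t ∧ c x y = c y t ∧ c x t = c x y := by
  induction d with
  | zero =>
    refine ⟨2, fun S κ c D hκ hD hc hS => ?_⟩
    obtain ⟨x, hx, y, hy, hxy⟩ := Finset.one_lt_card.mp (by omega : 1 < S.card)
    have hD0 : D = ∅ := Finset.card_eq_zero.mp (by omega)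
    rcases lt_trichotomy (κ x) (κ y) with h | h | h
    · exact absurd (hc x hx y hy h) (by simp [hD0])
    · exact absurd (hκ hx hy h) hxy
    · exact absurd (hc y hy x hx h) (by simp [hD0])
  | succ d ih =>
    obtain ⟨N, hN⟩ := ih
    refine ⟨(d + 1) * N + 2, fun S κ c D hκ hD hc hS => ?_⟩
    have hne : S.Nonempty := Finset.card_pos.mp (by omega)
    obtain ⟨x, hx, hmin⟩ := S.exists_min_image κ hne
    set S' := S.erase x with hS'
    have hcard : S'.card = S.card - 1 := Finset.card_erase_of_mem hx
    have hlt : ∀ y ∈ S', κ x < κ y := by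
      intro y hy
      have hyS := Finset.mem_of_mem_erase hy
      have hne := Finset.ne_of_mem_erase hy
      exact lt_of_le_of_ne (hmin y hyS) fun h => hne (hκ hyS hx h.symm)
    have hmaps : ∀ y ∈ S', c x y ∈ D := fun y hy =>
      hc x hx y (Finset.mem_of_mem_erase hy) (hlt y hy)
    have hpig : D.card * N < S'.card := by
      calc D.card * N ≤ (d + 1) * N := Nat.mul_le_mul_right N hD
        _ < S'.card := by omega
    obtain ⟨k, hkD, hk⟩ := Finset.exists_lt_card_fiber_of_mul_lt_card_of_maps_to hmaps hpig
    set T := S'.filter (fun y => c x y = k) with hT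
    have hTS : ∀ y ∈ T, y ∈ S := fun y hy =>
      Finset.mem_of_mem_erase (Finset.mem_of_mem_filter y hy)
    by_cases hex : ∃ y ∈ T, ∃ t ∈ T, κ y < κ t ∧ c y t = k
    · obtain ⟨y, hy, t, ht, hyt, hcyt⟩ := hex
      have hy' := Finset.mem_filter.mp hy
      have ht' := Finset.mem_filter.mp ht
      exact ⟨x, hx, y, hTS y hy, t, hTS t ht, hlt y hy'.1, hyt, by rw [hy'.2, hcyt],
        by rw [ht'.2, hy'.2]⟩
    · push Not at hex
      obtain ⟨y1, h1, y2, h2, y3, h3, h4⟩ := hN T κ c (D.erase k) (hκ.mono (fun y hy => hTS y hy))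
        (by rw [Finset.card_erase_of_mem hkD]; omega)
        (fun y hy t ht hyt => Finset.mem_erase.mpr ⟨hex y hy t ht hyt, hc y (hTS y hy) t (hTS t ht) hyt⟩)
        hk.le
      exact ⟨y1, hTS _ h1, y2, hTS _ h2, y3, hTS _ h3, h4⟩

/-- A finite poset in which chains have at most `ρ` elements has a large antichain. -/
lemma antichain_of_chains {α : Type*} [DecidableEq α] (R : α → α → Prop) (hirr : ∀ x, ¬ R x x)
    (htr : ∀ x y t, R x y → R y t → R x t) (ρ : ℕ) : ∀ S : Finset α,
    (∀ T ⊆ S, (∀ x ∈ T, ∀ y ∈ T, x ≠ y → R x y ∨ R y x) → T.card ≤ ρ) →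
    ∃ A ⊆ S, (∀ x ∈ A, ∀ y ∈ A, ¬ R x y) ∧ S.card ≤ ρ * A.card := by
  classical
  induction ρ with
  | zero =>
    intro S hS
    refine ⟨∅, Finset.empty_subset _, by simp, ?_⟩
    by_contra h
    push Not at h
    simp only [Nat.zero_mul] at h
    obtain ⟨x, hx⟩ := Finset.card_pos.mp h
    have := hS {x} (by simpa using hx) (by simp)
    simp at this
  | succ ρ ih =>
    intro S hS
    set Mn := S.filter (fun x => ∀ y ∈ S, ¬ R y x) with hMn
    set S' := S.filter (fun x => ¬ ∀ y ∈ S, ¬ R y x) with hS'
    have hsplit : Mn.card + S'.card = S.card := Finset.card_filter_add_card_filter_not _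
    obtain ⟨A', hA'S, hA', hcard⟩ := ih S' (by
      intro T hT hch
      by_contra hlt
      push Not at hlt
      have hTne : T.Nonempty := Finset.card_pos.mp (by omega)
      -- a minimal element of T
      obtain ⟨b, hb, hbmin⟩ : ∃ b ∈ T, ∀ y ∈ T, ¬ R y b := by
        by_contra hcon
        push Not at hcon
        -- well-foundedness on finite set
        have hwf : WellFounded (fun (x y : {x // x ∈ T}) => R x.1 y.1) := by
          have : IsTrans {x // x ∈ T} (fun x y => R x.1 y.1) := ⟨fun x y t h1 h2 => htr _ _ _ h1 h2⟩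
          have : Std.Irrefl (fun (x y : {x // x ∈ T}) => R x.1 y.1) := ⟨fun x => hirr _⟩
          exact Finite.wellFounded_of_trans_of_irrefl _
        obtain ⟨x, hx⟩ := hTne
        obtain ⟨m, _, hm⟩ := hwf.has_min Set.univ ⟨⟨x, hx⟩, trivial⟩
        obtain ⟨y, hy, hR⟩ := hcon m.1 m.2
        exact hm ⟨y, hy⟩ trivial hR
      have hbS' := Finset.mem_filter.mp (hT hb)
      push Not at hbS'
      obtain ⟨hbS, y, hyS, hyb⟩ := hbS'
      have hyT : y ∉ T := fun h => hbmin y h hyb
      have hyall : ∀ t ∈ T, R y t := by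
        intro t ht
        by_cases htb : t = b
        · rw [htb]; exact hyb
        · rcases hch t ht b hb htb with h | h
          · exact absurd h (hbmin t ht)
          · exact htr _ _ _ hyb h
      have := hS (insert y T) (by
        intro t ht
        rcases Finset.mem_insert.mp ht with h | h
        · rw [h]; exact hyS
        · exact (Finset.mem_filter.mp (hT h)).1) (by
        intro t ht u hu htu
        rcases Finset.mem_insert.mp ht with h | h <;> rcases Finset.mem_insert.mp hu with h' | h'
        · exact absurd (h.trans h'.symm) htu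
        · left; rw [h]; exact hyall u h'
        · right; rw [h']; exact hyall t h
        · exact hch t h u h' htu)
      rw [Finset.card_insert_of_notMem hyT] at this
      omega)
    have hMna : ∀ x ∈ Mn, ∀ y ∈ Mn, ¬ R x y := fun x hx y hy =>
      (Finset.mem_filter.mp hy).2 x (Finset.mem_filter.mp hx).1
    by_cases hcmp : A'.card ≤ Mn.card
    · refine ⟨Mn, Finset.filter_subset _ _, hMna, ?_⟩
      have : ρ * A'.card ≤ ρ * Mn.card := Nat.mul_le_mul_left ρ hcmp
      nlinarith
    · push Not at hcmp
      refine ⟨A', hA'S.trans (Finset.filter_subset _ _), hA', ?_⟩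
      nlinarith

/-- A finite family of intervals without `ρ + 1` pairwise intersecting members has a large
disjoint subfamily. -/
lemma disjoint_of_cliques {α : Type*} [DecidableEq α] (lo hi : α → ℕ) (hle : ∀ x, lo x ≤ hi x) (ρ : ℕ) :
    ∀ (n : ℕ) (S : Finset α), S.card = n →
    (∀ T ⊆ S, (∀ x ∈ T, ∀ y ∈ T, x ≠ y → lo x ≤ hi y ∧ lo y ≤ hi x) → T.card ≤ ρ) →
    ∃ A ⊆ S, (∀ x ∈ A, ∀ y ∈ A, x ≠ y → ¬ (lo x ≤ hi y ∧ lo y ≤ hi x)) ∧ S.card ≤ ρ * A.card := by
  classical
  intro n
  induction n using Nat.strong_induction_on with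
  | _ n ih =>
    intro S hn hS
    by_cases hne : S.Nonempty
    · obtain ⟨x, hx, hmin⟩ := S.exists_min_image hi hne
      set T := S.filter (fun y => lo y ≤ hi x) with hT
      set S' := S.filter (fun y => ¬ lo y ≤ hi x) with hS'
      have hsplit : T.card + S'.card = S.card := Finset.card_filter_add_card_filter_not _
      have hxT : x ∈ T := Finset.mem_filter.mpr ⟨hx, hle x⟩
      have hTpos : 0 < T.card := Finset.card_pos.mpr ⟨x, hxT⟩
      have hTc : T.card ≤ ρ := hS T (Finset.filter_subset _ _) (by
        intro y hy t ht _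
        have hy' := Finset.mem_filter.mp hy
        have ht' := Finset.mem_filter.mp ht
        exact ⟨hy'.2.trans (hmin t ht'.1), ht'.2.trans (hmin y hy'.1)⟩)
      obtain ⟨A', hA'S, hA', hcard⟩ := ih S'.card (by omega) S' rfl
        (fun U hU => hS U (hU.trans (Finset.filter_subset _ _)))
      have hxA' : x ∉ A' := by
        intro h
        exact (Finset.mem_filter.mp (hA'S h)).2 (hle x)
      refine ⟨insert x A', ?_, ?_, ?_⟩
      · intro y hy
        rcases Finset.mem_insert.mp hy with h | h
        · rw [h]; exact hx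
        · exact (Finset.mem_filter.mp (hA'S h)).1
      · intro y hy t ht hyt
        rcases Finset.mem_insert.mp hy with h | h <;> rcases Finset.mem_insert.mp ht with h' | h'
        · exact absurd (h.trans h'.symm) hyt
        · intro hc
          rw [h] at hc
          exact (Finset.mem_filter.mp (hA'S h')).2 hc.2
        · intro hc
          rw [h'] at hc
          exact (Finset.mem_filter.mp (hA'S h)).2 hc.1
        · exact hA' y h t h' hyt
      · rw [Finset.card_insert_of_notMem hxA']
        nlinarith
    · rw [Finset.not_nonempty_iff_eq_empty] at hne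
      refine ⟨∅, by simp, by simp, by simp [hne]⟩


/-! ### structure of patterns -/

section structure_

variable {r : ℕ}

/-- `e` and `f` have disjoint vertex sets -/
def Dj (e f : Fin r ↪o ℕ) : Prop := ∀ a b, e a ≠ f b

/-- no block boundary of the pair `e, f` between `a` and `b` -/
def NoCut (e f : Fin r ↪o ℕ) (a b : Fin r) : Prop :=
  ∀ i j : Fin r, (j : ℕ) = i + 1 → a ≤ i → j ≤ b → (e j < f i ∨ f j < e i)

open Classical in
/-- number of block boundaries to the left of `a` -/
noncomputable def bk (e f : Fin r ↪o ℕ) (a : Fin r) : ℕ :=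
  ((Finset.univ : Finset (Fin r)).filter
    (fun i => i < a ∧ ∃ j : Fin r, (j : ℕ) = i + 1 ∧ ¬ (e j < f i ∨ f j < e i))).card

lemma bk_mono (e f : Fin r ↪o ℕ) : Monotone (bk e f) := by
  classical
  intro a b hab
  unfold bk
  apply Finset.card_le_card
  intro i hi
  simp only [Finset.mem_filter, Finset.mem_univ, true_and] at hi ⊢
  exact ⟨hi.1.trans_le hab, hi.2⟩

lemma bk_eq_noCut (e f : Fin r ↪o ℕ) {a b : Fin r} (hab : a ≤ b) (h : bk e f a = bk e f b) :
    NoCut e f a b := by
  classical
  intro i j hij hai hjb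
  by_contra hc
  have hlt : bk e f a < bk e f b := by
    unfold bk
    apply Finset.card_lt_card
    rw [Finset.ssubset_iff_of_subset]
    · refine ⟨i, ?_, ?_⟩
      · simp only [Finset.mem_filter, Finset.mem_univ, true_and]
        refine ⟨?_, j, hij, hc⟩
        exact lt_of_lt_of_le (by rw [Fin.lt_def]; omega) hjb
      · simp only [Finset.mem_filter, Finset.mem_univ, true_and, not_and]
        intro h; exact absurd h (not_lt.mpr hai)
    · intro i hi
      simp only [Finset.mem_filter, Finset.mem_univ, true_and] at hi ⊢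
      exact ⟨hi.1.trans_le hab, hi.2⟩
  omega

lemma bk_lt_cut (e f : Fin r ↪o ℕ) {a b : Fin r} (h : bk e f a < bk e f b) :
    ∃ i j : Fin r, (j : ℕ) = i + 1 ∧ a ≤ i ∧ j ≤ b ∧ ¬ (e j < f i ∨ f j < e i) := by
  classical
  by_contra hcon
  push Not at hcon
  have : bk e f b ≤ bk e f a := by
    unfold bk
    apply Finset.card_le_card
    intro i hi
    simp only [Finset.mem_filter, Finset.mem_univ, true_and] at hi ⊢
    obtain ⟨hib, j, hij, hc⟩ := hi
    refine ⟨?_, j, hij, hc⟩
    by_contra hai
    push Not at hai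
    have h1 := hcon i j hij hai (by rw [Fin.le_def]; rw [Fin.lt_def] at hib; omega)
    exact hc h1
  omega

/-- criterion for collectability -/
lemma blockForm_of {e f : Fin r ↪o ℕ} (hd : Dj e f)
    (h : ∀ a b : Fin r, a < b → NoCut e f a b → (e b < f a ∨ f b < e a)) :
    BlockForm (tbl e f) := by
  refine ⟨bk e f, fun n => ∃ a, bk e f a = n ∧ e a < f a, bk_mono e f, ?_⟩
  -- same block: the orientation is constant
  have key : ∀ a b : Fin r, a ≤ b → bk e f a = bk e f b → (e a < f a ↔ e b < f b) ∧
      (e a < f b ↔ e a < f a) ∧ (e b < f a ↔ e a < f a) := by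
    intro a b hab hbk
    rcases eq_or_lt_of_le hab with h1 | h1
    · subst h1; simp
    · have h2 := h a b h1 (bk_eq_noCut e f hab hbk)
      have he : e a < e b := e.strictMono h1
      have hf : f a < f b := f.strictMono h1
      rcases h2 with h2 | h2
      · refine ⟨?_, ?_, ?_⟩ <;> constructor <;> intro _ <;> omega
      · refine ⟨?_, ?_, ?_⟩ <;> constructor <;> intro _ <;> omega
  intro a b
  show e a < f b ↔ _
  rcases lt_trichotomy (bk e f a) (bk e f b) with hlt | heq | hgt
  · simp only [hlt, true_or, iff_true]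
    obtain ⟨i, j, hij, hai, hjb, hc⟩ := bk_lt_cut e f hlt
    push Not at hc
    have h1 : e a ≤ e i := e.monotone hai
    have h2 : f j ≤ f b := f.monotone hjb
    have h3 := hd i j
    omega
  · have hiff : (∃ a', bk e f a' = bk e f a ∧ e a' < f a') ↔ e a < f a := by
      constructor
      · rintro ⟨a', h1, h2⟩
        rcases le_total a' a with h3 | h3
        · exact (key a' a h3 h1).1.mp h2
        · exact (key a a' h3 h1.symm).1.mpr h2
      · intro h1; exact ⟨a, rfl, h1⟩
    simp only [heq, lt_irrefl, false_or, true_and]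
    rw [← heq, hiff]
    rcases le_total a b with h3 | h3
    · exact (key a b h3 heq).2.1
    · have := key b a h3 heq.symm
      rw [this.2.2, this.1]
  · have h1 : ¬ bk e f a < bk e f b := by omega
    have h2 : ¬ bk e f a = bk e f b := by omega
    simp only [h1, h2, false_and, or_self, iff_false, not_lt]
    obtain ⟨i, j, hij, hbi, hja, hc⟩ := bk_lt_cut e f hgt
    push Not at hc
    have h4 : f b ≤ f i := f.monotone hbi
    have h5 : e j ≤ e a := e.monotone hja
    have h6 := hd j i
    omega

/-- three edges with equal patterns force the pattern to be collectable -/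
lemma blockForm_of_triple {e f g : Fin r ↪o ℕ} (hef : Dj e f) (hfg : Dj f g)
    (h1 : tbl f g = tbl e f) (h2 : tbl e g = tbl e f) : BlockForm (tbl e f) := by
  have k1 : ∀ a b, f a < g b ↔ e a < f b := fun a b => iff_of_eq (congrFun (congrFun h1 a) b)
  have k2 : ∀ a b, e a < g b ↔ e a < f b := fun a b => iff_of_eq (congrFun (congrFun h2 a) b)
  apply blockForm_of hef
  intro a b hab hnc
  -- induction on b
  obtain ⟨n, hn⟩ : ∃ n : ℕ, (b : ℕ) = a + 1 + n := ⟨b - (a + 1), by rw [Fin.lt_def] at hab; omega⟩
  induction n generalizing b with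
  | zero => exact hnc a b (by omega) le_rfl le_rfl
  | succ n ih =>
    have hb : (b : ℕ) - 1 < r := by omega
    set b' : Fin r := ⟨(b : ℕ) - 1, hb⟩ with hb'
    have hbb : (b : ℕ) = b' + 1 := by simp [hb']; omega
    have hb'b : b' ≤ b := by rw [Fin.le_def]; omega
    have hab' : a < b' := by rw [Fin.lt_def]; omega
    have h3 := ih b' hab' (fun i j hij hai hjb => hnc i j hij hai (hjb.trans hb'b)) (by omega)
    have h4 := hnc b' b hbb hab'.le le_rfl
    have ea : e a < e b' := e.strictMono hab'
    have fa : f a < f b' := f.strictMono hab'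
    have eab : e a < e b := e.strictMono hab
    have fab : f a < f b := f.strictMono hab
    rcases h3 with h3 | h3 <;> rcases h4 with h4 | h4
    · left
      have h5 : f b' < g a := (k1 b' a).mpr h3
      exact (k2 b a).mp (h4.trans h5)
    · omega
    · omega
    · right
      -- g b < f b' < e a
      have h5 : ¬ f b' < g b := by rw [k1]; omega
      have h6 : g b < f b' := lt_of_le_of_ne (not_lt.mp h5) (hfg b' b).symm
      have h7 : ¬ e a < g b := by omega
      rw [k2] at h7
      exact lt_of_le_of_ne (not_lt.mp h7) (hef a b).symm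


/-- For a collectable pattern, two vertices `a < b` lie in one block iff the hulls are disjoint. -/
lemma sameBlock_iff {e f : Fin r ↪o ℕ} (hef : Dj e f) (hc : BlockForm (tbl e f)) {a b : Fin r}
    (hab : a < b) : SameBlock (tbl e f) a b ↔ (e b < f a ∨ f b < e a) := by
  obtain ⟨blk, s, hmono, hp⟩ := hc
  have p1 : e a < f b ↔ _ := hp a b
  have p2 : e b < f a ↔ _ := hp b a
  have d1 := hef a b
  have d2 := hef b a
  have h0 := hmono hab.le
  unfold SameBlock
  show (e a < f b ↔ e b < f a) ↔ _
  have ea : e a < e b := e.strictMono hab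
  have fa : f a < f b := f.strictMono hab
  rcases eq_or_lt_of_le h0 with h | h
  · rw [h] at p1 p2
    constructor
    · intro _
      by_cases hs : s (blk b)
      · left; rw [p2]; simp [hs]
      · right
        have : ¬ e a < f b := by rw [p1]; simp [hs]
        omega
    · intro _
      rw [p1, p2]
  · have q1 : e a < f b := by rw [p1]; left; exact h
    have q2 : ¬ e b < f a := by rw [p2]; omega
    constructor
    · intro h3; exact absurd (h3.mp q1) q2
    · intro h3; omega

lemma sameBlock_blk {p : Pattern r} {blk : Fin r → ℕ} {s : ℕ → Prop}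
    (hp : ∀ a b, p a b ↔ (blk a < blk b ∨ (blk a = blk b ∧ s (blk a)))) (i j : Fin r) :
    SameBlock p i j ↔ blk i = blk j := by
  unfold SameBlock
  rw [hp, hp]
  rcases lt_trichotomy (blk i) (blk j) with h | h | h
  · have h1 : ¬ blk j < blk i := by omega
    have h2 : ¬ blk j = blk i := by omega
    simp [h, h1, h2, h.ne]
  · simp [h]
  · have h1 : ¬ blk i < blk j := by omega
    have h2 : ¬ blk i = blk j := by omega
    simp [h, h1, h2]

/-- steps within one block chain up -/
lemma sameBlock_chain {p : Pattern r} (hc : BlockForm p) {a b : Fin r} (hab : a ≤ b)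
    (h : ∀ i j : Fin r, (j : ℕ) = i + 1 → a ≤ i → j ≤ b → SameBlock p i j) : SameBlock p a b := by
  obtain ⟨blk, s, hmono, hp⟩ := hc
  have hblk : ∀ n : ℕ, ∀ b' : Fin r, (b' : ℕ) = a + n → b' ≤ b → blk b' = blk a := by
    intro n
    induction n with
    | zero => intro b' hb' _; congr 1; exact Fin.ext (by omega)
    | succ n ih =>
      intro b' hb' hb'b
      have hlt : (a : ℕ) + n < r := by have := b'.2; omega
      set c : Fin r := ⟨a + n, hlt⟩ with hcdef
      have h1 := ih c rfl (by rw [Fin.le_def] at hb'b ⊢; simp [hcdef]; omega)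
      have h2 := h c b' (by simp [hcdef]; omega) (by rw [Fin.le_def]; simp [hcdef]) hb'b
      rw [sameBlock_blk hp] at h2
      rw [← h2, h1]
  rw [sameBlock_blk hp]
  exact (hblk (b - a) b (by rw [Fin.le_def] at hab; omega) le_rfl).symm

lemma sameBlock_mono {p : Pattern r} (hc : BlockForm p) {i j k l : Fin r} (hij : i ≤ j) (hjk : j ≤ k)
    (hkl : k ≤ l) (h : SameBlock p i l) : SameBlock p j k := by
  obtain ⟨blk, s, hmono, hp⟩ := hc
  rw [sameBlock_blk hp] at h ⊢
  have h1 := hmono hij
  have h2 := hmono hjk
  have h3 := hmono hkl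
  omega

lemma sameBlock_of_nocut {p : Pattern r} (hc : BlockForm p) {i j : Fin r} (hij : i ≤ j)
    (h : p j i ∨ ¬ p i j) : SameBlock p i j := by
  obtain ⟨blk, s, hmono, hp⟩ := hc
  rw [sameBlock_blk hp]
  have h1 := hmono hij
  rcases eq_or_lt_of_le h1 with h2 | h2
  · exact h2
  · exfalso
    rcases h with h | h
    · rw [hp] at h; omega
    · apply h; rw [hp]; left; exact h2

end structure_

/-! ### the main argument -/

section main_

variable {r : ℕ} [NeZero r]

omit [NeZero r] in
lemma IsMatching.subset {M S : Finset (Fin r ↪o ℕ)} (hM : IsMatching M) (h : S ⊆ M) : IsMatching S :=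
  fun e he f hf => hM e (h he) f (h hf)

/-- cliques of non-collectable patterns are bounded -/
lemma clique_bounded (Q : Set (Pattern r)) (hQ : ∀ q ∈ Q, ¬ BlockForm q) :
    ∃ ρ : ℕ, ∀ S : Finset (Fin r ↪o ℕ), IsMatching S → IsClq Q S → S.card ≤ ρ := by
  classical
  obtain ⟨N, hN⟩ := ramsey (α := Fin r ↪o ℕ) (C := Pattern r) (Finset.univ : Finset (Pattern r)).card
  refine ⟨N, fun S hS hcl => ?_⟩
  by_contra hlt
  push Not at hlt
  have hinj : Set.InjOn (fun e : Fin r ↪o ℕ => e 0) S := by
    intro e he f hf h
    by_contra hne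
    exact hS e he f hf hne 0 0 h
  obtain ⟨e, he, f, hf, g, hg, h1, h2, h3, h4⟩ := hN S (fun e => e 0) (fun e f => tbl e f)
    Finset.univ hinj le_rfl (fun _ _ _ _ _ => Finset.mem_univ _) hlt.le
  have hne1 : e ≠ f := by rintro rfl; exact lt_irrefl _ h1
  have hne2 : f ≠ g := by rintro rfl; exact lt_irrefl _ h2
  have hne3 : e ≠ g := by rintro rfl; exact lt_irrefl _ (h1.trans h2)
  have hcol := blockForm_of_triple (hS e he f hf hne1) (hS f hf g hg hne2) h3.symm h4
  rcases hcl e he f hf hne1 with h | h
  · exact hQ _ h.2 hcol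
  · exact absurd h.1 (not_lt.mpr h1.le)


/-- Removing one non-collectable pattern from a clique. -/
lemma remove_pattern (P Q : Set (Pattern r)) (hP : ∀ p ∈ P, BlockForm p) (hU : Uniform P)
    {ρ : ℕ} (hρ : ∀ S : Finset (Fin r ↪o ℕ), IsMatching S → IsClq Q S → S.card ≤ ρ)
    {q : Pattern r} (hq : ¬ BlockForm q) (S : Finset (Fin r ↪o ℕ)) (hS : IsMatching S)
    (hcl : IsClq (P ∪ Q) S) :
    ∃ S' ⊆ S, S.card ≤ ρ * S'.card ∧ ∀ e ∈ S', ∀ f ∈ S', e 0 < f 0 → tbl e f ≠ q := by
  classical
  by_cases hex : ∃ e ∈ S, ∃ f ∈ S, e 0 < f 0 ∧ tbl e f = q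
  swap
  · push Not at hex
    refine ⟨S, Finset.Subset.refl _, ?_, hex⟩
    rcases S.eq_empty_or_nonempty with h | ⟨e, he⟩
    · simp [h]
    · have h1 := hρ {e} (hS.subset (by simpa using he)) (by
        intro x hx y hy hxy
        rw [Finset.mem_singleton] at hx hy
        exact absurd (hx.trans hy.symm) hxy)
      rw [Finset.card_singleton] at h1
      nlinarith
  obtain ⟨e₀, he₀, f₀, hf₀, hlt₀, htbl₀⟩ := hex
  have hne₀ : e₀ ≠ f₀ := by rintro rfl; exact lt_irrefl _ hlt₀
  have hd₀ : Dj e₀ f₀ := hS e₀ he₀ f₀ hf₀ hne₀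
  have q0 : ∀ a b, q a b ↔ e₀ a < f₀ b := fun a b => by rw [← htbl₀]; rfl
  have htab : ∀ e f : Fin r ↪o ℕ, tbl e f = q → ∀ a b, q a b ↔ e a < f b := fun e f h a b => by
    rw [← h]; rfl
  by_cases hdom : ∃ p ∈ P, ∀ a b : Fin r, a ≤ b → (q b a → p b a) ∧ (¬ q a b → ¬ p a b)
  · -- interval case
    obtain ⟨p, hpP, hpdom⟩ := hdom
    have hnc : ¬ ∀ a b : Fin r, a < b → NoCut e₀ f₀ a b → (e₀ b < f₀ a ∨ f₀ b < e₀ a) := by
      intro h
      apply hq
      rw [← htbl₀]
      exact blockForm_of hd₀ h
    push Not at hnc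
    obtain ⟨a, b, hab, hcut, hx1, hx2⟩ := hnc
    have hab2 : (a : ℕ) + 2 ≤ b := by
      rw [Fin.lt_def] at hab
      by_contra hlt
      have := hcut a b (by omega) le_rfl le_rfl
      omega
    -- all patterns of P have a and b in the same block
    have hall : ∀ p' ∈ P, SameBlock p' a b := by
      have hstep : ∀ i j : Fin r, (j : ℕ) = i + 1 → a ≤ i → j ≤ b → SameBlock p i j := by
        intro i j hij hai hjb
        have hle : i ≤ j := by rw [Fin.le_def]; omega
        apply sameBlock_of_nocut (hP p hpP) hle
        rcases hcut i j hij hai hjb with h | h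
        · left; exact (hpdom i j hle).1 ((q0 j i).mpr h)
        · right
          apply (hpdom i j hle).2
          rw [q0]; omega
      have hpab : SameBlock p a b := sameBlock_chain (hP p hpP) hab.le hstep
      intro p' hp'
      apply sameBlock_chain (hP p' hp') hab.le
      intro i j hij hai hjb
      rw [Fin.le_def] at hai hjb
      have hbr := b.2
      by_cases hcase : (i : ℕ) + 2 ≤ b
      · have hk : (i : ℕ) + 2 < r := by omega
        have h1 : SameBlock p i ⟨i + 2, hk⟩ := by
          apply sameBlock_mono (hP p hpP) (i := a) (l := b) _ _ _ hpab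
          · rw [Fin.le_def]; exact hai
          · rw [Fin.le_def]; simp
          · rw [Fin.le_def]; simpa using hcase
        have h2 := hU p hpP p' hp' i ⟨i + 2, hk⟩ rfl h1
        apply sameBlock_mono (hP p' hp') (i := i) (l := ⟨i + 2, hk⟩) le_rfl _ _ h2
        · rw [Fin.le_def]; omega
        · rw [Fin.le_def]; simp; omega
      · have hk : (i : ℕ) - 1 < r := by omega
        set i' : Fin r := ⟨(i : ℕ) - 1, hk⟩ with hi'
        have hi'v : (i' : ℕ) = i - 1 := rfl
        have h1 : SameBlock p i' j := by
          apply sameBlock_mono (hP p hpP) (i := a) (l := b) _ _ _ hpab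
          · rw [Fin.le_def]; omega
          · rw [Fin.le_def]; omega
          · rw [Fin.le_def]; omega
        have h2 := hU p hpP p' hp' i' j (by omega) h1
        apply sameBlock_mono (hP p' hp') (i := i') (l := j) _ _ le_rfl h2
        · rw [Fin.le_def]; omega
        · rw [Fin.le_def]; omega
    -- pattern-in-P pairs have disjoint hulls
    have hdisj : ∀ e f : Fin r ↪o ℕ, Dj e f → tbl e f ∈ P → (e b < f a ∨ f b < e a) := by
      intro e f hd hm
      exact (sameBlock_iff hd (hP _ hm) hab).mp (hall _ hm)
    obtain ⟨A, hAS, hA, hcard⟩ := disjoint_of_cliques (fun e : Fin r ↪o ℕ => e a)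
      (fun e : Fin r ↪o ℕ => e b) (fun e => e.monotone hab.le) ρ S.card S rfl (by
      intro T hT hTc
      apply hρ T (hS.subset hT)
      intro e he f hf hne
      have h3 := hTc e he f hf hne
      have hd : Dj e f := hS e (hT he) f (hT hf) hne
      rcases hcl e (hT he) f (hT hf) hne with h | h
      · left
        refine ⟨h.1, ?_⟩
        rcases h.2 with h4 | h4
        · have := hdisj e f hd h4
          omega
        · exact h4
      · right
        refine ⟨h.1, ?_⟩
        rcases h.2 with h4 | h4
        · have := hdisj f e (fun x y hxy => hd y x hxy.symm) h4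
          omega
        · exact h4)
    refine ⟨A, hAS, hcard, ?_⟩
    intro e he f hf hlt htbl
    have hne : e ≠ f := by rintro rfl; exact lt_irrefl _ hlt
    apply hA e he f hf hne
    have h5 := htab e f htbl
    have h6 : q a b := by
      rw [q0]
      have := hd₀ a b
      omega
    have h7 : ¬ q b a := by rw [q0]; omega
    rw [h5] at h6 h7
    omega
  · -- partial order case
    push Not at hdom
    have q00 : q 0 0 := by rw [q0]; exact hlt₀
    let R : (Fin r ↪o ℕ) → (Fin r ↪o ℕ) → Prop := fun e f =>
      ∀ a b : Fin r, a ≤ b → (q b a → e b < f a) ∧ (¬ q a b → f b < e a)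
    have hirr : ∀ x, ¬ R x x := fun x h => lt_irrefl _ ((h 0 0 le_rfl).1 q00)
    have htr : ∀ x y t, R x y → R y t → R x t := by
      intro x y t hxy hyt a b hab
      constructor
      · intro h
        have h1 := (hxy a b hab).1 h
        have h2 := (hyt a b hab).1 h
        have h3 : y a ≤ y b := y.monotone hab
        omega
      · intro h
        have h1 := (hxy a b hab).2 h
        have h2 := (hyt a b hab).2 h
        have h3 : y a ≤ y b := y.monotone hab
        omega
    have hR0 : ∀ e f, R e f → e 0 < f 0 := fun e f h => (h 0 0 le_rfl).1 q00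
    have hRQ : ∀ e ∈ S, ∀ f ∈ S, e ≠ f → R e f → tbl e f ∈ Q := by
      intro e he f hf hne hR
      rcases hcl e he f hf hne with h | h
      · rcases h.2 with h4 | h4
        · exfalso
          obtain ⟨a, b, hab, hcon⟩ := hdom _ h4
          have h5 := hR a b hab
          have h6 := hcon (fun h => h5.1 h)
          have h7 : e a < f b := h6.2
          have h8 := h5.2 h6.1
          omega
        · exact h4
      · exact absurd h.1 (not_lt.mpr (hR0 e f hR).le)
    obtain ⟨A, hAS, hA, hcard⟩ := antichain_of_chains R hirr htr ρ S (by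
      intro T hT hTc
      apply hρ T (hS.subset hT)
      intro e he f hf hne
      rcases hTc e he f hf hne with h | h
      · left; exact ⟨hR0 e f h, hRQ e (hT he) f (hT hf) hne h⟩
      · right; exact ⟨hR0 f e h, hRQ f (hT hf) e (hT he) hne.symm h⟩)
    refine ⟨A, hAS, hcard, ?_⟩
    intro e he f hf hlt htbl
    have hne : e ≠ f := by rintro rfl; exact lt_irrefl _ hlt
    have hd : Dj e f := hS e (hAS he) f (hAS hf) hne
    apply hA e he f hf
    intro a b hab
    have h5 := htab e f htbl
    constructor
    · intro h; exact (h5 b a).mp h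
    · intro h
      rw [h5] at h
      have := hd a b
      omega

/-- Removing a finite set of non-collectable patterns. -/
lemma remove_all (P Q : Set (Pattern r)) (hP : ∀ p ∈ P, BlockForm p) (hU : Uniform P)
    {ρ : ℕ} (hρ : ∀ S : Finset (Fin r ↪o ℕ), IsMatching S → IsClq Q S → S.card ≤ ρ)
    (D : Finset (Pattern r)) (hD : ∀ q ∈ D, ¬ BlockForm q) (S : Finset (Fin r ↪o ℕ))
    (hS : IsMatching S) (hcl : IsClq (P ∪ Q) S) :
    ∃ S' ⊆ S, S.card ≤ ρ ^ D.card * S'.card ∧
      ∀ e ∈ S', ∀ f ∈ S', e 0 < f 0 → tbl e f ∉ D := by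
  classical
  induction D using Finset.induction_on with
  | empty => exact ⟨S, Finset.Subset.refl _, by simp, by simp⟩
  | insert q D hqD ih =>
    obtain ⟨S₁, h1, h2, h3⟩ := ih (fun q hq => hD q (Finset.mem_insert_of_mem hq))
    obtain ⟨S₂, h4, h5, h6⟩ := remove_pattern P Q hP hU hρ (hD q (Finset.mem_insert_self _ _)) S₁
      (hS.subset h1) (fun e he f hf hne => hcl e (h1 he) f (h1 hf) hne)
    refine ⟨S₂, h4.trans h1, ?_, ?_⟩
    · rw [Finset.card_insert_of_notMem hqD, pow_succ]
      calc S.card ≤ ρ ^ D.card * S₁.card := h2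
        _ ≤ ρ ^ D.card * (ρ * S₂.card) := Nat.mul_le_mul_left _ h5
        _ = ρ ^ D.card * ρ * S₂.card := by ring
    · intro e he f hf hlt hm
      rcases Finset.mem_insert.mp hm with h | h
      · exact h6 e he f hf hlt h
      · exact h3 e (h4 he) f (h4 hf) hlt h


/-! ### collectable patterns are those of block form -/

/-- The `j`-th edge of the standard clique of size `k` of a pattern of block form. -/
noncomputable def stdEdge (blk : Fin r → ℕ) (hb : Monotone blk) (s : ℕ → Prop) [DecidablePred s]
    (k : ℕ) (j : Fin k) : Fin r ↪o ℕ :=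
  OrderEmbedding.ofStrictMono
    (fun a => blk a * (k * r) + (if s (blk a) then (j : ℕ) else k - 1 - j) * r + a) (by
      intro a b hab
      have h0 := hb hab.le
      have hj := j.2
      have hab' : (a : ℕ) < b := hab
      have ha := a.2
      show blk a * (k * r) + (if s (blk a) then (j : ℕ) else k - 1 - j) * r + a <
        blk b * (k * r) + (if s (blk b) then (j : ℕ) else k - 1 - j) * r + b
      rcases eq_or_lt_of_le h0 with h | h
      · rw [h]; omega
      · have h1 : (blk a + 1) * (k * r) ≤ blk b * (k * r) := Nat.mul_le_mul_right _ h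
        have h2 : (if s (blk a) then (j : ℕ) else k - 1 - j) + 1 ≤ k := by split_ifs <;> omega
        have h3 : ((if s (blk a) then (j : ℕ) else k - 1 - j) + 1) * r ≤ k * r :=
          Nat.mul_le_mul_right _ h2
        have h4 : (blk a + 1) * (k * r) = blk a * (k * r) + k * r := by ring
        have h5 : ((if s (blk a) then (j : ℕ) else k - 1 - j) + 1) * r =
          (if s (blk a) then (j : ℕ) else k - 1 - j) * r + r := by ring
        omega)

omit [NeZero r] in
lemma stdEdge_apply (blk : Fin r → ℕ) (hb : Monotone blk) (s : ℕ → Prop) [DecidablePred s]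
    (k : ℕ) (j : Fin k) (a : Fin r) : stdEdge blk hb s k j a =
      blk a * (k * r) + (if s (blk a) then (j : ℕ) else k - 1 - j) * r + a := rfl

omit [NeZero r] in
lemma stdEdge_lt (blk : Fin r → ℕ) (hb : Monotone blk) (s : ℕ → Prop) [DecidablePred s]
    (k : ℕ) {j l : Fin k} (hjl : j < l) (a b : Fin r) :
    (stdEdge blk hb s k j a < stdEdge blk hb s k l b ↔
      (blk a < blk b ∨ (blk a = blk b ∧ s (blk a)))) ∧
    stdEdge blk hb s k j a ≠ stdEdge blk hb s k l b := by
  rw [stdEdge_apply, stdEdge_apply]
  have hj := j.2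
  have hl := l.2
  have hjl' : (j : ℕ) < l := hjl
  have ha := a.2
  have hb' := b.2
  have bound : ∀ (c : Fin r) (x : ℕ), x + 1 ≤ k → x * r + c < k * r := by
    intro c x hx
    have h3 : (x + 1) * r ≤ k * r := Nat.mul_le_mul_right _ hx
    have h5 : (x + 1) * r = x * r + r := by ring
    have := c.2
    omega
  have hb1 : ∀ c : Fin r, ∀ i : Fin k, (if s (blk c) then (i : ℕ) else k - 1 - i) * r + c < k * r := by
    intro c i
    apply bound
    have := i.2
    split_ifs <;> omega
  rcases lt_trichotomy (blk a) (blk b) with h | h | h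
  · have h1 : (blk a + 1) * (k * r) ≤ blk b * (k * r) := Nat.mul_le_mul_right _ h
    have h4 : (blk a + 1) * (k * r) = blk a * (k * r) + k * r := by ring
    have h5 := hb1 a j
    constructor
    · simp only [h, true_or, iff_true]
      omega
    · omega
  · rw [h]
    by_cases hs : s (blk b)
    · simp only [hs, if_true, lt_irrefl, false_or, and_self, iff_true]
      have h6 : ((j : ℕ) + 1) * r ≤ l * r := Nat.mul_le_mul_right _ hjl'
      have h7 : ((j : ℕ) + 1) * r = j * r + r := by ring
      constructor <;> omega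
    · simp only [hs, if_false, lt_irrefl, false_or, and_false, iff_false]
      have h6 : (k - 1 - (l : ℕ) + 1) * r ≤ (k - 1 - j) * r := Nat.mul_le_mul_right _ (by omega)
      have h7 : (k - 1 - (l : ℕ) + 1) * r = (k - 1 - l) * r + r := by ring
      constructor <;> omega
  · have h1 : (blk b + 1) * (k * r) ≤ blk a * (k * r) := Nat.mul_le_mul_right _ h
    have h4 : (blk b + 1) * (k * r) = blk b * (k * r) + k * r := by ring
    have h5 := hb1 b l
    have h6 : ¬ blk a < blk b := by omega
    have h7 : ¬ blk a = blk b := by omega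
    constructor
    · simp only [h6, h7, false_and, or_self, iff_false]
      omega
    · omega

/-- A pattern which occurs with `0`-th comparison true and has block form is collectable. -/
lemma collectable_of_blockForm {p : Pattern r} (h0 : p 0 0) (h : BlockForm p) : Collectable p := by
  classical
  obtain ⟨blk, s, hb, hp⟩ := h
  intro k
  have hlt := fun (j l : Fin k) (hjl : j < l) => stdEdge_lt blk hb s k hjl
  have htbl : ∀ j l : Fin k, j < l → tbl (stdEdge blk hb s k j) (stdEdge blk hb s k l) = p := by
    intro j l hjl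
    funext a b
    exact propext (((hlt j l hjl a b).1).trans (hp a b).symm)
  have hne : ∀ j l : Fin k, j ≠ l → ∀ a b, stdEdge blk hb s k j a ≠ stdEdge blk hb s k l b := by
    intro j l hjl a b
    rcases lt_or_gt_of_ne hjl with h | h
    · exact (hlt j l h a b).2
    · exact (hlt l j h b a).2.symm
  have hinj : Function.Injective (stdEdge blk hb s k) := by
    intro j l hjl
    by_contra hcon
    exact hne j l hcon 0 0 (by rw [hjl])
  refine ⟨Finset.univ.map ⟨stdEdge blk hb s k, hinj⟩, ?_, ?_, by simp⟩
  · intro e he f hf hef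
    simp only [Finset.mem_map, Finset.mem_univ, Function.Embedding.coeFn_mk, true_and] at he hf
    obtain ⟨j, rfl⟩ := he
    obtain ⟨l, rfl⟩ := hf
    exact hne j l (fun h => hef (by rw [h]))
  · intro e he f hf hef
    simp only [Finset.mem_map, Finset.mem_univ, Function.Embedding.coeFn_mk, true_and] at he hf
    obtain ⟨j, rfl⟩ := he
    obtain ⟨l, rfl⟩ := hf
    rcases lt_or_gt_of_ne (fun h => hef (by rw [h]) : j ≠ l) with h | h
    · left
      have h1 := htbl j l h
      refine ⟨?_, h1⟩
      have h2 : tbl (stdEdge blk hb s k j) (stdEdge blk hb s k l) 0 0 := by rw [h1]; exact h0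
      exact h2
    · right
      have h1 := htbl l j h
      refine ⟨?_, h1⟩
      have h2 : tbl (stdEdge blk hb s k l) (stdEdge blk hb s k j) 0 0 := by rw [h1]; exact h0
      exact h2

/-- Collectable patterns have block form. -/
lemma blockForm_of_collectable {p : Pattern r} (h : Collectable p) : BlockForm p := by
  classical
  obtain ⟨S, hM, hcl, hcard⟩ := h 3
  -- sort the three edges by their minima
  have hord : ∀ e ∈ S, ∀ f ∈ S, e ≠ f → e 0 < f 0 ∨ f 0 < e 0 := fun e he f hf hne =>
    lt_or_gt_of_ne (hM e he f hf hne 0 0)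
  have hpat : ∀ e ∈ S, ∀ f ∈ S, e 0 < f 0 → tbl e f = p := by
    intro e he f hf hlt
    have hne : e ≠ f := by rintro rfl; exact lt_irrefl _ hlt
    rcases hcl e he f hf hne with h | h
    · exact h.2
    · exact absurd h.1 (not_lt.mpr hlt.le)
  obtain ⟨e, f, g, h1, h2, h3, rfl⟩ := Finset.card_eq_three.mp hcard
  have key : ∀ x ∈ ({e, f, g} : Finset (Fin r ↪o ℕ)), ∀ y ∈ ({e, f, g} : Finset (Fin r ↪o ℕ)),
      ∀ t ∈ ({e, f, g} : Finset (Fin r ↪o ℕ)), x 0 < y 0 → y 0 < t 0 → BlockForm p := by
    intro x hx y hy t ht hxy hyt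
    have n1 : x ≠ y := by rintro rfl; exact lt_irrefl _ hxy
    have n2 : y ≠ t := by rintro rfl; exact lt_irrefl _ hyt
    have e1 := hpat x hx y hy hxy
    have e2 := hpat y hy t ht hyt
    have e3 := hpat x hx t ht (hxy.trans hyt)
    have := blockForm_of_triple (hM x hx y hy n1) (hM y hy t ht n2) (by rw [e1, e2]) (by rw [e1, e3])
    rw [e1] at this
    exact this
  have he : e ∈ ({e, f, g} : Finset (Fin r ↪o ℕ)) := by simp
  have hf : f ∈ ({e, f, g} : Finset (Fin r ↪o ℕ)) := by simp
  have hg : g ∈ ({e, f, g} : Finset (Fin r ↪o ℕ)) := by simp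
  rcases hord e he f hf h1 with a1 | a1 <;> rcases hord f hf g hg h3 with a2 | a2 <;>
    rcases hord e he g hg h2 with a3 | a3
  · exact key e he f hf g hg a1 a2
  · exact key e he f hf g hg a1 a2
  · exact key e he g hg f hf a3 a2
  · exact key g hg e he f hf a3 a1
  · exact key f hf e he g hg a1 a3
  · exact key f hf g hg e he a2 a3
  · exact key g hg f hf e he a2 a1
  · exact key g hg f hf e he a2 a1

end main_

/-- **Main result.** If `P` consists of collectable patterns, `Q` of non-collectable ones, and three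
consecutive vertices lie in one block either for all patterns of `P` or for none, then there is
`c > 0` with `z P M ≥ c * z (P ∪ Q) M` for every ordered `r`-matching `M`. -/
theorem result {r : ℕ} [NeZero r] (P Q : Set (Pattern r)) (hP : ∀ p ∈ P, Collectable p)
    (hQ : ∀ q ∈ Q, ¬ Collectable q) (hU : Uniform P) :
    ∃ c : ℝ, 0 < c ∧ ∀ M : Finset (Fin r ↪o ℕ), IsMatching M →
      c * (z (P ∪ Q) M : ℝ) ≤ (z P M : ℝ) := by
  classical
  -- patterns of `Q` which occur at all have `q 0 0`
  set Q' : Set (Pattern r) := {q ∈ Q | q 0 0} with hQ'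
  have hP' : ∀ p ∈ P, BlockForm p := fun p hp => blockForm_of_collectable (hP p hp)
  have hQb : ∀ q ∈ Q', ¬ BlockForm q := fun q hq h => hQ q hq.1 (collectable_of_blockForm hq.2 h)
  have hQcl : ∀ S : Finset (Fin r ↪o ℕ), IsClq (P ∪ Q) S → IsClq (P ∪ Q') S := by
    intro S hS e he f hf hne
    rcases hS e he f hf hne with h | h
    · left
      refine ⟨h.1, ?_⟩
      rcases h.2 with h4 | h4
      · exact Or.inl h4
      · exact Or.inr ⟨h4, h.1⟩
    · right
      refine ⟨h.1, ?_⟩
      rcases h.2 with h4 | h4
      · exact Or.inl h4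
      · exact Or.inr ⟨h4, h.1⟩
  obtain ⟨ρ, hρ⟩ := clique_bounded Q' hQb
  set K : ℕ := ρ ^ (Finset.univ.filter (fun q => q ∈ Q')).card with hK
  have hmain : ∀ M : Finset (Fin r ↪o ℕ), IsMatching M → z (P ∪ Q) M ≤ K * z P M := by
    intro M hM
    unfold z
    apply Finset.sup_le
    intro S hS
    rw [Finset.mem_filter, Finset.mem_powerset] at hS
    have hScl := hQcl S hS.2
    obtain ⟨S', h1, h2, h3⟩ := remove_all P Q' hP' hU hρ (Finset.univ.filter (fun q => q ∈ Q'))
      (fun q hq => hQb q (Finset.mem_filter.mp hq).2) S (hM.subset hS.1) hScl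
    refine h2.trans (Nat.mul_le_mul_left _ ?_)
    have hcl : IsClq P S' := by
      intro e he f hf hne
      rcases hScl e (h1 he) f (h1 hf) hne with h | h
      · left
        refine ⟨h.1, ?_⟩
        rcases h.2 with h4 | h4
        · exact h4
        · exact absurd (Finset.mem_filter.mpr ⟨Finset.mem_univ _, h4⟩) (h3 e he f hf h.1)
      · right
        refine ⟨h.1, ?_⟩
        rcases h.2 with h4 | h4
        · exact h4
        · exact absurd (Finset.mem_filter.mpr ⟨Finset.mem_univ _, h4⟩) (h3 f hf e he h.1)
    exact Finset.le_sup (f := card)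
      (Finset.mem_filter.mpr ⟨Finset.mem_powerset.mpr (h1.trans hS.1), hcl⟩)
  refine ⟨1 / ((K : ℝ) + 1), by positivity, fun M hM => ?_⟩
  have h5 : (z (P ∪ Q) M : ℝ) ≤ (K : ℝ) * (z P M : ℝ) := by exact_mod_cast hmain M hM
  have h6 : (0 : ℝ) ≤ (z P M : ℝ) := Nat.cast_nonneg _
  rw [div_mul_eq_mul_div, one_mul, div_le_iff₀ (by positivity)]
  linarith

/-- The hypothesis `Uniform` holds for one-element sets. -/
lemma uniform_singleton {r : ℕ} (p : Pattern r) : Uniform ({p} : Set (Pattern r)) := by
  intro p₁ h₁ p₂ h₂ i k _ h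
  rw [Set.mem_singleton_iff] at h₁ h₂
  rw [h₂, ← h₁]
  exact h

end Pool.Agent.Results.MP_0c785e_pr.UniformBlocks
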